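import Pool.Agent.Run7.h19.HP.Iface

set_option autoImplicit false

open Module Submodule Finset Pool.Agent.H99.SubDeg

namespace Run7.h222.HP

open Run7.h19.HP

open scoped Classical in
theorem t_NEAR : S_NEAR := by
  intro K _ _ V _ _ _ k τ j T hq hn hk hT hτk hkτ hj
  have key : ∀ S : Submodule K V, finrank K S = j → τ ≤ finrank K (S ⊓ T : Submodule K V) + 10 →
      ∃ p : (T →ₗ[K] (Fin 10 → K)) × ((Fin 11 → K) →ₗ[K] V),
        (LinearMap.ker p.1).map T.subtype ⊔ LinearMap.range p.2 = S := by
    intro S hS hd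
    obtain ⟨X, hXm⟩ : ∃ X : Submodule K T, X.map T.subtype = S ⊓ T :=
      ⟨(S ⊓ T).comap T.subtype, by
        rw [Submodule.map_comap_subtype]; exact inf_eq_right.mpr inf_le_right⟩
    have hXd : finrank K X = finrank K (S ⊓ T : Submodule K V) := by
      rw [← hXm]
      exact (LinearEquiv.finrank_eq (Submodule.equivMapOfInjective T.subtype T.injective_subtype X))
    have h1 : finrank K (T ⧸ X) ≤ finrank K (Fin 10 → K) := by
      have := Submodule.finrank_quotient_add_finrank X
      rw [finrank_fin_fun]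
      omega
    obtain ⟨f0, hf0⟩ := finrank_le_iff_exists_linearMap.mp h1
    obtain ⟨C, hC⟩ := Submodule.exists_isCompl ((S ⊓ T).comap S.subtype)
    have h2 : finrank K C ≤ finrank K (Fin 11 → K) := by
      have h3 := Submodule.finrank_add_eq_of_isCompl hC
      have h4 : finrank K ((S ⊓ T).comap S.subtype) = finrank K (S ⊓ T : Submodule K V) := by
        have h5 := LinearEquiv.finrank_eq (Submodule.equivMapOfInjective S.subtype
          S.injective_subtype ((S ⊓ T).comap S.subtype))
        rw [h5, Submodule.map_comap_subtype, inf_eq_right.mpr (inf_le_left : S ⊓ T ≤ S)]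
      rw [finrank_fin_fun]
      omega
    obtain ⟨g0, hg0⟩ := finrank_le_iff_exists_linearMap.mp h2
    obtain ⟨g1, hg1⟩ := LinearMap.exists_leftInverse_of_injective g0 (LinearMap.ker_eq_bot.mpr hg0)
    refine ⟨(f0 ∘ₗ X.mkQ, S.subtype ∘ₗ C.subtype ∘ₗ g1), ?_⟩
    have e1 : LinearMap.ker (f0 ∘ₗ X.mkQ) = X := by
      rw [LinearMap.ker_comp, LinearMap.ker_eq_bot.mpr hf0, ← LinearMap.ker, Submodule.ker_mkQ]
    have e2 : LinearMap.range g1 = ⊤ := by
      rw [LinearMap.range_eq_top]
      intro c
      exact ⟨g0 c, by rw [← LinearMap.comp_apply, hg1]; rfl⟩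
    have e3 : LinearMap.range (S.subtype ∘ₗ C.subtype ∘ₗ g1) = C.map S.subtype := by
      rw [LinearMap.range_comp, LinearMap.range_comp, e2, Submodule.map_top, Submodule.range_subtype]
    show (LinearMap.ker (f0 ∘ₗ X.mkQ)).map T.subtype ⊔
      LinearMap.range (S.subtype ∘ₗ C.subtype ∘ₗ g1) = S
    rw [e1, e3, hXm]
    have e4 : ((S ⊓ T).comap S.subtype).map S.subtype = S ⊓ T := by
      rw [Submodule.map_comap_subtype]
      exact inf_eq_right.mpr inf_le_left
    rw [← e4, ← Submodule.map_sup, hC.sup_eq_top, Submodule.map_top, Submodule.range_subtype]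
  haveI i1 : Finite (T →ₗ[K] (Fin 10 → K)) := Module.finite_of_finite K
  haveI i2 : Finite ((Fin 11 → K) →ₗ[K] V) := Module.finite_of_finite K
  letI : Fintype ((T →ₗ[K] (Fin 10 → K)) × ((Fin 11 → K) →ₗ[K] V)) := Fintype.ofFinite _
  have hsub : (univ.filter (fun S : Submodule K V => finrank K S = j ∧
      τ ≤ finrank K (S ⊓ T : Submodule K V) + 10)) ⊆
      (univ : Finset ((T →ₗ[K] (Fin 10 → K)) × ((Fin 11 → K) →ₗ[K] V))).image
        (fun p => (LinearMap.ker p.1).map T.subtype ⊔ LinearMap.range p.2) := by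
    intro S hS
    simp only [Finset.mem_filter, Finset.mem_univ, true_and] at hS
    obtain ⟨p, hp⟩ := key S hS.1 hS.2
    exact Finset.mem_image.mpr ⟨p, Finset.mem_univ _, hp⟩
  refine (Finset.card_le_card hsub).trans (Finset.card_image_le.trans ?_)
  rw [Finset.card_univ, ← Nat.card_eq_fintype_card, Nat.card_prod,
    Module.natCard_eq_pow_finrank (K := K) (V := T →ₗ[K] (Fin 10 → K)),
    Module.natCard_eq_pow_finrank (K := K) (V := (Fin 11 → K) →ₗ[K] V),
    Module.finrank_linearMap, Module.finrank_linearMap, finrank_fin_fun, finrank_fin_fun, hT, hn, hq,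
    ← pow_add]
  exact Nat.pow_le_pow_right (by omega) (by omega)

end Run7.h222.HP
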